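import Pool.Agent.Helper99.ZS.Lib

/-!
# MP_98699e_co: module BRL (a leaf on the rich side)
-/

set_option autoImplicit false

open Finset MeasureTheory

noncomputable section

namespace ZS

section brl
variable {V : Type} [Fintype V] [DecidableEq V] {p : ℕ} [NeZero p]

/-- the tree with one edge -/
abbrev brl_t : RT := RT.cons RT.nil RT.nil

theorem brl_mem (h : Host V p) {s : Bool} {u w : V} (hw : w ∈ h.N s u) (A : Finset V) :
    h.c u w ∈ X h brl_t s u (insert w A) := by
  rw [mem_X]
  refine ⟨{w}, by simp, w, ∅, ∅, 0, 0, hw, ⟨rfl, rfl⟩, ⟨rfl, rfl⟩, by simp, by simp, by simp,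
    by simp, by ring⟩

theorem brl_point {h : Host V p} {D : ℕ} (hg : h.Good D) (T : ℕ) (hT : 2 * p * T ≤ D) (u : V)
    (hN : (h.N true u).Nonempty) (A : Finset V) :
    (T : ℝ) - cs h brl_t true u T A ≤ 2 * T / #(h.N true u) * ∑ w ∈ h.N true u,
      ((cs h brl_t true u T (insert w A) : ℝ) - cs h brl_t true u T (A.erase w)) := by
  classical
  have hk : (0 : ℝ) < #(h.N true u) := by exact_mod_cast card_pos.2 hN
  have hmono : ∀ w, (cs h brl_t true u T (A.erase w) : ℝ) ≤ cs h brl_t true u T A := by
    intro w
    exact_mod_cast cs_mono h brl_t true u T (A.erase_subset w)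
  have hmono' : ∀ w, (cs h brl_t true u T A : ℝ) ≤ cs h brl_t true u T (insert w A) := by
    intro w
    exact_mod_cast cs_mono h brl_t true u T (A.subset_insert w)
  have hnn : 0 ≤ 2 * (T : ℝ) / #(h.N true u) * ∑ w ∈ h.N true u,
      ((cs h brl_t true u T (insert w A) : ℝ) - cs h brl_t true u T (A.erase w)) := by
    apply mul_nonneg (by positivity)
    exact sum_nonneg fun w _ => by linarith [hmono w, hmono' w]
  by_cases hlt : T ≤ #(X h brl_t true u A)
  · have h1 : cs h brl_t true u T A = T := by
      unfold cs
      exact min_eq_right hlt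
    rw [h1, sub_self]
    exact hnn
  · have hlt' : #(X h brl_t true u A) < T := not_le.1 hlt
    have hcsA : cs h brl_t true u T A = #(X h brl_t true u A) := by
      unfold cs
      exact min_eq_left hlt'.le
    set S := (h.N true u).filter
      (fun w => cs h brl_t true u T (insert w A) = cs h brl_t true u T A) with hS
    have hScol : ∀ w ∈ S, h.c u w ∈ X h brl_t true u A := by
      intro w hw
      rw [hS, mem_filter] at hw
      have h2 := hw.2
      rw [hcsA] at h2
      have h3 : #(X h brl_t true u (insert w A)) = #(X h brl_t true u A) := by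
        unfold cs at h2
        rcases min_choice #(X h brl_t true u (insert w A)) T with h4 | h4
        · rw [h4] at h2
          exact h2
        · rw [h4] at h2
          omega
      have h5 : X h brl_t true u A = X h brl_t true u (insert w A) :=
        eq_of_subset_of_card_le (X_mono h brl_t true u (subset_insert w A)) h3.le
      rw [h5]
      exact brl_mem h hw.1 A
    have hScard : #S ≤ #(X h brl_t true u A) * p := by
      have h6 : S ⊆ (X h brl_t true u A).biUnion
          (fun a => (h.N true u).filter (fun w => h.c u w = a)) := by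
        intro w hw
        rw [mem_biUnion]
        refine ⟨h.c u w, hScol w hw, ?_⟩
        rw [hS, mem_filter] at hw
        rw [mem_filter]
        exact ⟨hw.1, rfl⟩
      refine (card_le_card h6).trans (card_biUnion_le_card_mul _ _ p ?_)
      intro a _
      exact (hg.col u a).le
    have hDN : D ≤ #(h.N true u) := hg.deg true u hN
    have hS2 : 2 * #S ≤ #(h.N true u) := by
      have h7 : #(X h brl_t true u A) * p ≤ T * p := Nat.mul_le_mul_right p hlt'.le
      have h8 : 2 * p * T = 2 * (T * p) := by ring
      omega
    have hcompl : #(h.N true u) = #S + #((h.N true u).filter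
        (fun w => ¬ cs h brl_t true u T (insert w A) = cs h brl_t true u T A)) :=
      (card_filter_add_card_filter_not _).symm
    have hU : (#(h.N true u) : ℝ) / 2 ≤ #((h.N true u).filter
        (fun w => ¬ cs h brl_t true u T (insert w A) = cs h brl_t true u T A)) := by
      have h9 : #(h.N true u) ≤ 2 * #((h.N true u).filter
        (fun w => ¬ cs h brl_t true u T (insert w A) = cs h brl_t true u T A)) := by omega
      have h10 : (#(h.N true u) : ℝ) ≤ 2 * #((h.N true u).filter
        (fun w => ¬ cs h brl_t true u T (insert w A) = cs h brl_t true u T A)) := by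
        exact_mod_cast h9
      linarith
    have hsum : (#((h.N true u).filter
        (fun w => ¬ cs h brl_t true u T (insert w A) = cs h brl_t true u T A)) : ℝ) ≤
        ∑ w ∈ h.N true u,
          ((cs h brl_t true u T (insert w A) : ℝ) - cs h brl_t true u T (A.erase w)) := by
      rw [card_filter]
      push_cast
      refine sum_le_sum fun w _ => ?_
      split_ifs with hc
      · linarith [hmono w, hmono' w]
      · have h11 : cs h brl_t true u T A + 1 ≤ cs h brl_t true u T (insert w A) := by
          have := cs_mono h brl_t true u T (A.subset_insert w)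
          omega
        have h12 : (cs h brl_t true u T A : ℝ) + 1 ≤ cs h brl_t true u T (insert w A) := by
          exact_mod_cast h11
        linarith [hmono w]
    have hTpos : (0 : ℝ) ≤ 2 * T / #(h.N true u) := by positivity
    have h13 := mul_le_mul_of_nonneg_left (hU.trans hsum) hTpos
    have h14 : 2 * (T : ℝ) / #(h.N true u) * (#(h.N true u) / 2) = T := by
      field_simp
    rw [h14] at h13
    have h15 : (0 : ℝ) ≤ cs h brl_t true u T A := Nat.cast_nonneg _
    linarith

end brl

theorem st_BRL (hI : ST_INF) : ST_BRL := by
  intro V _ _ p _ h D hD hg T θ h0 h1 hT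
  classical
  have hDp : (0 : ℝ) < D := by exact_mod_cast hD
  set F : V → Finset V → ℝ := fun u A => (cs h brl_t true u T A : ℝ) with hF
  have hinfl := ave_infl hI hD hg true h0 h1 F
    (fun x A B hAB => by
      show (cs h brl_t true x T A : ℝ) ≤ cs h brl_t true x T B
      exact_mod_cast cs_mono h brl_t true x T hAB)
    (fun x A => Nat.cast_nonneg _)
    (fun x A => by
      show (cs h brl_t true x T A : ℝ) ≤ T
      exact_mod_cast cs_le h brl_t true x T A)
  have h2 : DF h θ brl_t true T ≤ av h true (fun u => 2 * T * ((∑ w ∈ h.N true u,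
      EE θ (fun A => F u (insert w A) - F u (A.erase w))) / #(h.N true u))) := by
    unfold DF
    apply av_mono
    intro u hN
    have h3 := EE_mono h0.le h1 (fun A => brl_point hg T hT u hN A)
    rw [EE_mul, EE_sum] at h3
    refine h3.trans (le_of_eq ?_)
    ring
  refine h2.trans ?_
  rw [av_mul]
  have h4 : av h true (fun u => (∑ w ∈ h.N true u,
      EE θ (fun A => F u (insert w A) - F u (A.erase w))) / #(h.N true u))
      = ave h true (fun x w => EE θ fun A => F x (insert w A) - F x (A.erase w)) := by
    rw [av_def]
    unfold ave
    congr 1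
    refine sum_congr rfl fun u _ => ?_
    rcases (h.N true u).eq_empty_or_nonempty with hx | hx
    · simp [hx]
    · have hk : (0 : ℝ) < #(h.N true u) := by exact_mod_cast card_pos.2 hx
      field_simp
  rw [h4]
  calc 2 * (T : ℝ) * ave h true (fun x w => EE θ fun A => F x (insert w A) - F x (A.erase w))
      ≤ 2 * T * (T / (θ * D)) := mul_le_mul_of_nonneg_left hinfl (by positivity)
    _ = 2 * T * T / (θ * D) := by ring

end ZS
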