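import Pool.Agent.Helper99.ZS.Lib

/-!
# MP_98699e_co: module EM (there is an embedding with high probability)
-/

set_option autoImplicit false

open Finset MeasureTheory

noncomputable section

namespace ZS

section em
variable {V : Type} [Fintype V] [DecidableEq V] {p : ℕ}

open Classical in
/-- hereditary largeness -/
def em_H (h : Host V p) (n : ℕ) : ℕ → Bool → V → Finset V → Prop
  | 0, _, _, _ => True
  | j + 1, s, u, A => n ≤ #{w ∈ h.N s u | w ∈ A ∧ em_H h n j (!s) w A}

open Classical in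
theorem em_H_mono (h : Host V p) (n : ℕ) : ∀ (j : ℕ) (s : Bool) (u : V) (A B : Finset V),
    A ⊆ B → em_H h n j s u A → em_H h n j s u B
  | 0, _, _, _, _, _, _ => trivial
  | j + 1, s, u, A, B, hAB, hA => by
    unfold em_H at hA ⊢
    refine hA.trans (card_le_card ?_)
    intro w hw
    rw [mem_filter] at hw ⊢
    exact ⟨hw.1, hAB hw.2.1, em_H_mono h n j (!s) w A B hAB hw.2.2⟩

open Classical in
theorem em_emb (h : Host V p) (n : ℕ) : ∀ (t : RT) (j : ℕ) (s : Bool) (u : V)
    (U A : Finset V), em_H h n j s u A → t.e ≤ j → #U + t.e ≤ n → u ∈ U →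
    ∃ φ x, φ ⊆ A \ U ∧ Emb h t s u φ x
  | RT.nil, _, _, _, _, _, _, _, _, _ => ⟨∅, 0, empty_subset _, rfl, rfl⟩
  | RT.cons a b, 0, _, _, _, _, _, hj, _, _ => by
    rw [RT.e] at hj
    omega
  | RT.cons a b, j + 1, s, u, U, A, hH, hj, hU, hu => by
    have hH0 := hH
    unfold em_H at hH
    rw [RT.e] at hj hU
    have hcand : ∃ w ∈ (h.N s u).filter (fun w => w ∈ A ∧ em_H h n j (!s) w A), w ∉ U := by
      by_contra hcon
      push Not at hcon
      have := card_le_card (show (h.N s u).filter (fun w => w ∈ A ∧ em_H h n j (!s) w A) ⊆ U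
        from hcon)
      omega
    obtain ⟨w, hw, hwU⟩ := hcand
    rw [mem_filter] at hw
    obtain ⟨hwN, hwA, hwH⟩ := hw
    have hc1 : #(insert w U) = #U + 1 := card_insert_of_notMem hwU
    obtain ⟨φa, y, hφa, hEa⟩ := em_emb h n a j (!s) w (insert w U) A hwH (by omega)
      (by omega) (mem_insert_self w U)
    have hca : #φa = a.e := Emb_card h a (!s) w φa y hEa
    have hc2 : #(insert w U ∪ φa) ≤ #U + 1 + a.e := by
      have := card_union_le (insert w U) φa
      omega
    obtain ⟨φb, z, hφb, hEb⟩ := em_emb h n b (j + 1) s u (insert w U ∪ φa) A hH0 (by omega)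
      (by omega) (mem_union_left _ (mem_insert_of_mem hu))
    refine ⟨insert w (φa ∪ φb), h.c u w + y + z, ?_, w, φa, φb, y, z, hwN, hEa, hEb, ?_, ?_, ?_,
      rfl, rfl⟩
    · intro v hv
      rw [mem_insert, mem_union] at hv
      rw [mem_sdiff]
      rcases hv with rfl | hv | hv
      · exact ⟨hwA, hwU⟩
      · have := hφa hv
        rw [mem_sdiff, mem_insert, not_or] at this
        exact ⟨this.1, this.2.2⟩
      · have := hφb hv
        rw [mem_sdiff, mem_union, mem_insert, not_or, not_or] at this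
        exact ⟨this.1, this.2.1.2⟩
    · intro hv
      have := hφa hv
      rw [mem_sdiff, mem_insert, not_or] at this
      exact this.2.2 hu
    · intro hv
      have := hφb hv
      rw [mem_sdiff, mem_union, mem_insert, not_or, not_or] at this
      exact this.2.1.1 rfl
    · rw [disjoint_left]
      intro v hva hvb
      have := hφb hvb
      rw [mem_sdiff, mem_union, not_or] at this
      exact this.2.2 hva

open Classical in
/-- indicator of the failure -/
def em_F (h : Host V p) (n j : ℕ) (s : Bool) (u : V) (A : Finset V) : ℝ :=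
  if em_H h n j s u A then 0 else 1

theorem em_F_anti (h : Host V p) (n j : ℕ) (s : Bool) (u : V) (A B : Finset V) (hAB : A ⊆ B) :
    em_F h n j s u B ≤ em_F h n j s u A := by
  unfold em_F
  by_cases hA : em_H h n j s u A
  · rw [if_pos hA, if_pos (em_H_mono h n j s u A B hAB hA)]
  · rw [if_neg hA]
    split_ifs <;> norm_num

theorem em_F_nonneg (h : Host V p) (n j : ℕ) (s : Bool) (u : V) (A : Finset V) :
    0 ≤ em_F h n j s u A := by
  unfold em_F
  split_ifs <;> norm_num

open Classical in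
/-- pointwise bound -/
theorem em_point (h : Host V p) (n j : ℕ) (s : Bool) (u : V) (q : ℝ) (A : Finset V)
    (hq : 0 < q) (hN : (h.N s u).Nonempty) (hn : (n : ℝ) ≤ q * #(h.N s u) / 4) :
    em_F h n (j + 1) s u A ≤ (if (#(A ∩ h.N s u) : ℝ) < q * #(h.N s u) / 2 then (1 : ℝ) else 0) +
      4 / (q * #(h.N s u)) * ∑ w ∈ h.N s u, if w ∈ A then em_F h n j (!s) w A else 0 := by
  have hk : (0 : ℝ) < #(h.N s u) := by exact_mod_cast card_pos.2 hN
  have hsum : ∑ w ∈ h.N s u, (if w ∈ A then em_F h n j (!s) w A else 0)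
      = (#{w ∈ h.N s u | w ∈ A ∧ ¬ em_H h n j (!s) w A} : ℝ) := by
    rw [card_filter]
    push_cast
    refine sum_congr rfl fun w _ => ?_
    unfold em_F
    by_cases h1 : w ∈ A <;> by_cases h2 : em_H h n j (!s) w A <;> simp [h1, h2]
  rw [hsum]
  have hpos : 0 ≤ 4 / (q * #(h.N s u)) * (#{w ∈ h.N s u | w ∈ A ∧ ¬ em_H h n j (!s) w A} : ℝ) := by
    positivity
  by_cases hH : em_H h n (j + 1) s u A
  · have : em_F h n (j + 1) s u A = 0 := by
      unfold em_F
      rw [if_pos hH]
    rw [this]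
    split_ifs <;> linarith
  · have h0 : em_F h n (j + 1) s u A = 1 := by
      unfold em_F
      rw [if_neg hH]
    rw [h0]
    split_ifs with hc
    · linarith
    · rw [zero_add]
      have hlt : #{w ∈ h.N s u | w ∈ A ∧ em_H h n j (!s) w A} < n := by
        unfold em_H at hH
        exact not_le.1 hH
      have hsplit : #(A ∩ h.N s u) = #{w ∈ h.N s u | w ∈ A ∧ em_H h n j (!s) w A}
          + #{w ∈ h.N s u | w ∈ A ∧ ¬ em_H h n j (!s) w A} := by
        rw [← card_union_of_disjoint]
        · congr 1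
          ext w
          rw [mem_inter, mem_union, mem_filter, mem_filter]
          tauto
        · rw [disjoint_left]
          intro w h1 h2
          rw [mem_filter] at h1 h2
          exact h2.2.2 h1.2.2
      have hsplit' : (#(A ∩ h.N s u) : ℝ) = (#{w ∈ h.N s u | w ∈ A ∧ em_H h n j (!s) w A} : ℝ)
          + (#{w ∈ h.N s u | w ∈ A ∧ ¬ em_H h n j (!s) w A} : ℝ) := by exact_mod_cast hsplit
      have hlt' : (#{w ∈ h.N s u | w ∈ A ∧ em_H h n j (!s) w A} : ℝ) < n := by exact_mod_cast hlt
      have hge := not_lt.1 hc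
      rw [div_mul_eq_mul_div, le_div_iff₀ (by positivity)]
      linarith

/-- Chernoff -/
theorem em_chern (hP : ST_PROD) (q : ℝ) (hq : 0 ≤ q) (hq1 : q ≤ 1) (S : Finset V) :
    E q (fun A : Finset V => if (#(A ∩ S) : ℝ) < q * #S / 2 then (1 : ℝ) else 0)
      ≤ Real.exp (-(0.15 * (q * #S))) := by
  have hl2 := Real.log_two_lt_d9
  have hl20 : 0 < Real.log 2 := Real.log_pos (by norm_num)
  have h1 : E q (fun A : Finset V => if (#(A ∩ S) : ℝ) < q * #S / 2 then (1 : ℝ) else 0)
      ≤ E q (fun A : Finset V => Real.exp (Real.log 2 * (q * #S / 2)) *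
        (1 / 2 : ℝ) ^ #(A ∩ S)) := by
    apply E_mono hq hq1
    intro A
    split_ifs with hc
    · have h2 : (1 / 2 : ℝ) ^ #(A ∩ S) = Real.exp (-(Real.log 2 * #(A ∩ S))) := by
        have : Real.exp (-(Real.log 2 * #(A ∩ S))) = Real.exp (-(Real.log 2)) ^ #(A ∩ S) := by
          rw [← Real.exp_nat_mul]
          congr 1
          ring
        rw [this, Real.exp_neg, Real.exp_log (by norm_num)]
        norm_num
      rw [h2, ← Real.exp_add]
      apply Real.one_le_exp
      have : 0 ≤ Real.log 2 * (q * #S / 2 - #(A ∩ S)) := mul_nonneg hl20.le (by linarith)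
      linarith
    · positivity
  refine h1.trans ?_
  rw [E_mul, hP V q (1 / 2) S]
  have h3 : (1 - q + q * (1 / 2)) ^ #S ≤ Real.exp (-(q * #S / 2)) := by
    have h4 : 1 - q + q * (1 / 2) ≤ Real.exp (-(q / 2)) := by
      have := Real.add_one_le_exp (-(q / 2))
      linarith
    have h5 : Real.exp (-(q * #S / 2)) = Real.exp (-(q / 2)) ^ #S := by
      rw [← Real.exp_nat_mul]
      congr 1
      ring
    rw [h5]
    exact pow_le_pow_left₀ (by linarith) h4 _
  calc Real.exp (Real.log 2 * (q * #S / 2)) * (1 - q + q * (1 / 2)) ^ #S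
      ≤ Real.exp (Real.log 2 * (q * #S / 2)) * Real.exp (-(q * #S / 2)) :=
        mul_le_mul_of_nonneg_left h3 (Real.exp_pos _).le
    _ = Real.exp (Real.log 2 * (q * #S / 2) + -(q * #S / 2)) := (Real.exp_add _ _).symm
    _ ≤ Real.exp (-(0.15 * (q * #S))) := by
        apply Real.exp_le_exp.2
        have h6 : 0 ≤ q * #S := by positivity
        nlinarith

theorem em_step (hP : ST_PROD) (hR : ST_HAR) {h : Host V p} {D : ℕ} (hD : 0 < D)
    (hg : h.Good D) (n j : ℕ) (s : Bool) (q : ℝ) (hq : 0 < q) (hq1 : q ≤ 1)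
    (hn : (n : ℝ) ≤ q * D / 4) :
    av h s (fun u => E q (em_F h n (j + 1) s u)) ≤ Real.exp (-(0.15 * (q * D))) +
      4 * av h (!s) (fun u => E q (em_F h n j (!s) u)) := by
  have key : ∀ u, (h.N s u).Nonempty → E q (em_F h n (j + 1) s u) ≤
      Real.exp (-(0.15 * (q * D))) +
        4 * ((∑ w ∈ h.N s u, E q (em_F h n j (!s) w)) / #(h.N s u)) := by
    intro u hN
    have hk : (0 : ℝ) < #(h.N s u) := by exact_mod_cast card_pos.2 hN
    have hDk : (D : ℝ) ≤ #(h.N s u) := by exact_mod_cast hg.deg s u hN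
    have hn' : (n : ℝ) ≤ q * #(h.N s u) / 4 := by
      have := mul_le_mul_of_nonneg_left hDk hq.le
      linarith
    have h1 := E_mono hq.le hq1 (fun A => em_point h n j s u q A hq hN hn')
    rw [E_add, E_mul, E_sum] at h1
    have h2 := em_chern hP q hq.le hq1 (h.N s u)
    have h3 : Real.exp (-(0.15 * (q * #(h.N s u)))) ≤ Real.exp (-(0.15 * (q * D))) := by
      apply Real.exp_le_exp.2
      have := mul_le_mul_of_nonneg_left hDk hq.le
      linarith
    have h4 : ∑ w ∈ h.N s u, E q (fun A => if w ∈ A then em_F h n j (!s) w A else 0)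
        ≤ ∑ w ∈ h.N s u, q * E q (em_F h n j (!s) w) :=
      sum_le_sum fun w _ => hR V q hq.le hq1 w _ (em_F_anti h n j (!s) w)
    rw [← mul_sum] at h4
    have h5 : 4 / (q * #(h.N s u)) *
        ∑ w ∈ h.N s u, E q (fun A => if w ∈ A then em_F h n j (!s) w A else 0)
        ≤ 4 / (q * #(h.N s u)) * (q * ∑ w ∈ h.N s u, E q (em_F h n j (!s) w)) :=
      mul_le_mul_of_nonneg_left h4 (by positivity)
    have h6 : 4 / (q * #(h.N s u)) * (q * ∑ w ∈ h.N s u, E q (em_F h n j (!s) w))
        = 4 * ((∑ w ∈ h.N s u, E q (em_F h n j (!s) w)) / #(h.N s u)) := by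
      field_simp
    linarith
  refine (av_mono key).trans ?_
  rw [av_add, av_mul, av_const hg]
  have h7 : av h s (fun u => (∑ w ∈ h.N s u, E q (em_F h n j (!s) w)) / #(h.N s u))
      = av h (!s) (fun u => E q (em_F h n j (!s) u)) := by
    rw [← ave_right, av_def]
    unfold ave
    congr 1
    refine sum_congr rfl fun u _ => ?_
    rcases (h.N s u).eq_empty_or_nonempty with hx | hx
    · simp [hx]
    · have hk : (0 : ℝ) < #(h.N s u) := by exact_mod_cast card_pos.2 hx
      field_simp
  rw [h7]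

theorem em_ind (hP : ST_PROD) (hR : ST_HAR) {h : Host V p} {D : ℕ} (hD : 0 < D)
    (hg : h.Good D) (n : ℕ) (q : ℝ) (hq : 0 < q) (hq1 : q ≤ 1)
    (hn : (n : ℝ) ≤ q * D / 4) : ∀ (j : ℕ) (s : Bool),
    av h s (fun u => E q (em_F h n j s u)) ≤ (4 ^ j - 1) * Real.exp (-(0.15 * (q * D)))
  | 0, s => by
    have h0 : ∀ u, E q (em_F h n 0 s u) = 0 := by
      intro u
      have : em_F h n 0 s u = fun _ => 0 := by
        funext A
        unfold em_F
        rw [if_pos]
        exact trivial
      rw [this, E_const]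
    have h1 : av h s (fun u => E q (em_F h n 0 s u)) = 0 := by
      simp only [h0]
      exact av_const hg s 0
    rw [h1]
    simp
  | j + 1, s => by
    have h1 := em_step hP hR hD hg n j s q hq hq1 hn
    have h2 := em_ind hP hR hD hg n q hq hq1 hn j (!s)
    have h3 : 0 < Real.exp (-(0.15 * (q * D))) := Real.exp_pos _
    have h4 : ((4 : ℝ) ^ (j + 1) - 1) = 4 * (4 ^ j - 1) + 3 := by ring
    rw [h4]
    nlinarith

end em

theorem st_EM (hP : ST_PROD) (hR : ST_HAR) : ST_EM := by
  intro V _ _ p _ h D hD hg t s q hq0 hq1 ht hqD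
  classical
  have he1 : (1 : ℝ) ≤ t.e := by exact_mod_cast ht
  have hDp : (0 : ℝ) < D := by exact_mod_cast hD
  have hq : 0 < q := by
    rcases hq0.lt_or_eq with h1 | h1
    · exact h1
    · rw [← h1, zero_mul] at hqD
      linarith
  have hn : ((t.e + 1 : ℕ) : ℝ) ≤ q * D / 4 := by
    push_cast
    linarith
  have h1 := em_ind hP hR hD hg (t.e + 1) q hq hq1 hn t.e s
  have h2 : em h q t s ≤ av h s (fun u => E q (em_F h (t.e + 1) t.e s u)) := by
    unfold em
    apply av_mono
    intro u _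
    apply E_mono hq.le hq1
    intro A
    unfold em_F
    by_cases hH : em_H h (t.e + 1) t.e s u A
    · obtain ⟨φ, x, hφ, hE⟩ := em_emb h (t.e + 1) t t.e s u {u} A hH le_rfl
        (by rw [card_singleton]; omega) (mem_singleton_self u)
      have hx : x ∈ X h t s u A := by
        rw [mem_X]
        exact ⟨φ, hφ.trans sdiff_subset, hE⟩
      have hne : X h t s u A ≠ ∅ := fun h0 => by
        rw [h0] at hx
        exact absurd hx (notMem_empty x)
      rw [if_pos hH]
      refine le_of_eq ?_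
      exact if_neg hne
    · rw [if_neg hH]
      split_ifs <;> norm_num
  refine h2.trans (h1.trans ?_)
  have h3 : Real.exp (-(0.15 * (q * D))) ≤ Real.exp (-(307 * t.e)) := by
    apply Real.exp_le_exp.2
    linarith
  have h4 : (4 : ℝ) ^ t.e ≤ Real.exp (2 * t.e) := by
    have h5 : Real.exp (2 * t.e) = Real.exp 2 ^ t.e := by
      rw [← Real.exp_nat_mul]
      congr 1
      ring
    rw [h5]
    apply pow_le_pow_left₀ (by norm_num)
    have h6 : Real.exp 2 = Real.exp 1 * Real.exp 1 := by
      rw [← Real.exp_add]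
      norm_num
    have h7 := Real.exp_one_gt_d9
    rw [h6]
    nlinarith
  have h8 : Real.exp (2 * t.e) * Real.exp (-(307 * t.e)) = Real.exp (-(305 * t.e)) := by
    rw [← Real.exp_add]
    congr 1
    ring
  have h9 : 2048 * (t.e : ℝ) ≤ Real.exp (305 * t.e) := by
    have h10 := Real.quadratic_le_exp_of_nonneg (show (0 : ℝ) ≤ 305 * t.e by positivity)
    nlinarith
  calc ((4 : ℝ) ^ t.e - 1) * Real.exp (-(0.15 * (q * D)))
      ≤ (4 : ℝ) ^ t.e * Real.exp (-(0.15 * (q * D))) := by
        apply mul_le_mul_of_nonneg_right _ (Real.exp_pos _).le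
        linarith
    _ ≤ Real.exp (2 * t.e) * Real.exp (-(307 * t.e)) :=
        mul_le_mul h4 h3 (Real.exp_pos _).le (Real.exp_pos _).le
    _ = Real.exp (-(305 * t.e)) := h8
    _ = 1 / Real.exp (305 * t.e) := by rw [Real.exp_neg, one_div]
    _ ≤ 1 / (2048 * t.e) := one_div_le_one_div_of_le (by positivity) h9

end ZS
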